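import Pool.Agent.Lib.MP_eee7a8_ag.TB.Iface4
import Pool.Agent.Lib.MP_eee7a8_ag.TB.H86.Stab

/-!
# TAGBR, module BRSYSA
-/

set_option autoImplicit false

open Matrix

namespace Pool.Agent.Lib.MP_eee7a8_ag.TB.C85

open Pool.Agent.Lib.MP_eee7a8_ag.TB.H86

/-! ## Parabolic elements -/

lemma par_smul_x (c x : Cusp) (n : ℤ) :
    eps (par c n) x * (par c n • x).x = x.x + n * dt c x * c.x := by
  rw [smul_x]
  simp only [par, Matrix.of_apply, Matrix.cons_val', Matrix.cons_val_zero, Matrix.cons_val_one,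
      Matrix.cons_val_fin_one, Matrix.empty_val', dt]
  ring

lemma par_smul_y (c x : Cusp) (n : ℤ) :
    eps (par c n) x * (par c n • x).y = x.y + n * dt c x * c.y := by
  rw [smul_y]
  simp only [par, Matrix.of_apply, Matrix.cons_val', Matrix.cons_val_zero, Matrix.cons_val_one,
      Matrix.cons_val_fin_one, Matrix.empty_val', dt]
  ring

lemma par_fix {c x : Cusp} (hx : c ≠ x) {k : ℤ} (h : par c k • x = x) : k = 0 := by
  have h1 := par_smul_x c x k
  have h2 := par_smul_y c x k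
  rw [h] at h1 h2
  have hD := dt_ne_zero hx
  have h3 : (eps (par c k) x - 1) * dt c x = 0 := by
    unfold dt at h1 h2 ⊢
    linear_combination c.x * h2 - c.y * h1
  have h4 : eps (par c k) x = 1 := by
    rcases mul_eq_zero.1 h3 with h5 | h5
    · linarith
    · exact absurd h5 hD
  rw [h4] at h1 h2
  have h5 : k * dt c x * c.x = 0 := by linarith
  have h6 : k * dt c x * c.y = 0 := by linarith
  have h7 : k * dt c x = 0 := by
    rcases c.ne_zero with h8 | h8
    · exact (mul_eq_zero.1 h5).resolve_right h8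
    · exact (mul_eq_zero.1 h6).resolve_right h8
  exact (mul_eq_zero.1 h7).resolve_right hD

lemma par_inj {c x : Cusp} (hx : c ≠ x) {k l : ℤ} (h : par c k • x = par c l • x) : k = l := by
  have h1 : par c (k - l) • x = x := by
    have e : par c (k - l) = par c (-l) * par c k := by rw [par_mul]; congr 1; ring
    rw [e, mul_smul, h, ← mul_smul, par_mul, neg_add_cancel, par_zero, one_smul]
  have := par_fix hx h1
  omega

lemma act_zpow {g : SLZ} {c : Cusp} {m : ℤ} (hg : ∀ x : Cusp, g • x = par c m • x) (n : ℤ) :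
    ∀ x : Cusp, g ^ n • x = par c (n * m) • x := by
  have hnat : ∀ n : ℕ, ∀ x : Cusp, g ^ n • x = par c (n * m) • x := by
    intro n
    induction n with
    | zero => intro x; simp [par_zero]
    | succ n ih =>
      intro x
      rw [pow_succ, mul_smul, hg, ih, ← mul_smul, par_mul]
      congr 2
      push_cast
      ring
  obtain ⟨k, rfl | rfl⟩ := n.eq_nat_or_neg
  · intro x
    rw [zpow_natCast]
    exact hnat k x
  · intro x
    rw [_root_.zpow_neg, zpow_natCast, inv_smul_eq_iff, hnat, ← mul_smul, par_mul]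
    have : (k : ℤ) * m + -(k : ℤ) * m = 0 := by ring
    rw [this, par_zero, one_smul]

/-- a generator of the stabiliser -/
lemma gen_abs (hS : StabStatement) {G : Subgroup SLZ} (hG : IsSurface G) {c a : Cusp} (hca : c ≠ a)
    {g : SLZ} (hg : g ∈ G) (hgc : g • c = c)
    (hgen : ∀ k ∈ G, k • c = c → ∃ n : ℤ, k = g ^ n ∨ k = -g ^ n) :
    ∃ k : ℤ, |k| = 1 ∧ g • a = par c (k * width G c) • a := by
  obtain ⟨hw, hw', hst⟩ := hS G hG c
  obtain ⟨k, hk⟩ := hst g hg hgc
  have hact : ∀ x : Cusp, g • x = par c (k * width G c) • x := by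
    intro x
    rcases hk with hk | hk
    · rw [hk]
    · rw [hk, neg_smul']
  refine ⟨k, ?_, hact a⟩
  -- the generator is a power of `g`
  obtain ⟨s, hs, hsx⟩ : ∃ s ∈ G, ∀ x : Cusp, s • x = par c (width G c) • x := by
    rcases hw' with h | h
    · exact ⟨_, h, fun x => rfl⟩
    · exact ⟨_, h, fun x => neg_smul' _ x⟩
  have hsc : s • c = c := by
    rw [hsx]
    apply Cusp.ext_pm (eps_or (par c (width G c)) c)
    · rw [par_smul_x, dt_self]; ring
    · rw [par_smul_y, dt_self]; ring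
  obtain ⟨n, hn⟩ := hgen s hs hsc
  have h1 : s • a = par c (n * (k * width G c)) • a := by
    rcases hn with hn | hn
    · rw [hn]; exact act_zpow hact n a
    · rw [hn, neg_smul']; exact act_zpow hact n a
  rw [hsx] at h1
  have h2 := par_inj hca h1
  have hw2 : (width G c : ℤ) ≠ 0 := by exact_mod_cast hw.ne'
  have h3 : n * k = 1 := by
    have : (width G c : ℤ) * (n * k) = width G c * 1 := by linear_combination -h2
    exact mul_left_cancel₀ hw2 this
  have h4 : |n| * |k| = 1 := by rw [← abs_mul, h3, abs_one]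
  exact Int.eq_one_of_mul_eq_one_left (abs_nonneg k) h4

/-! ## Sides -/

/-- polar form of `side` -/
def pol (h : SLZ) (a c : Cusp) : ℤ :=
  a.x * (h.1 1 0 * c.x + h.1 1 1 * c.y) - a.y * (h.1 0 0 * c.x + h.1 0 1 * c.y) +
  c.x * (h.1 1 0 * a.x + h.1 1 1 * a.y) - c.y * (h.1 0 0 * a.x + h.1 0 1 * a.y)

lemma side_par (h : SLZ) (c a : Cusp) (n : ℤ) : side h (par c n • a) =
    side h a + n * dt c a * pol h a c + (n * dt c a) ^ 2 * side h c := by
  have h1 := par_smul_x c a n
  have h2 := par_smul_y c a n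
  have h3 := eps_sq (par c n) a
  have e : side h (par c n • a) =
      (eps (par c n) a * (par c n • a).x) * (h.1 1 0 * (eps (par c n) a * (par c n • a).x) +
        h.1 1 1 * (eps (par c n) a * (par c n • a).y)) -
      (eps (par c n) a * (par c n • a).y) * (h.1 0 0 * (eps (par c n) a * (par c n • a).x) +
        h.1 0 1 * (eps (par c n) a * (par c n • a).y)) := by
    unfold side
    linear_combination (-((par c n • a).x * (h.1 1 0 * (par c n • a).x + h.1 1 1 * (par c n • a).y) -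
      (par c n • a).y * (h.1 0 0 * (par c n • a).x + h.1 0 1 * (par c n • a).y))) * h3
  rw [e, h1, h2]
  unfold side pol
  ring

/-- if all the translates of `a` by powers of `g` are on one side then so is `c` -/
lemma side_limit {h g : SLZ} {c a : Cusp} (hca : c ≠ a) (hgc : g • c = c) (hga : g • a ≠ a)
    (hpos : ∀ k : ℕ, 0 < side h (g ^ k • a) * side h (g ^ k • g • a)) :
    0 ≤ side h c * side h a := by
  obtain ⟨n, hn⟩ := eq_par_or g c hgc
  have hact : ∀ x : Cusp, g • x = par c n • x := by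
    intro x
    rcases hn with hn | hn
    · rw [hn]
    · rw [hn, neg_smul']
  have hpow : ∀ k : ℕ, g ^ k • a = par c (k * n) • a := by
    intro k
    have := act_zpow hact k a
    rwa [zpow_natCast] at this
  have hD : n * dt c a ≠ 0 := by
    refine mul_ne_zero ?_ (dt_ne_zero hca)
    rintro rfl
    apply hga
    rw [hact, par_zero, one_smul]
  -- all translates are on the side of `a`
  have hall : ∀ k : ℕ, 0 < side h a * side h (g ^ k • a) := by
    intro k
    induction k with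
    | zero =>
      have h0 := hpos 0
      rw [pow_zero, one_smul, one_smul] at h0
      rw [pow_zero, one_smul]
      have : side h a ≠ 0 := by
        intro e; rw [e] at h0; simp at h0
      exact mul_self_pos.2 this
    | succ k ih =>
      have h1 := hpos k
      rw [← mul_smul, ← pow_succ] at h1
      by_contra h2
      push Not at h2
      have h3 : 0 < (side h a * side h (g ^ k • a)) * (side h (g ^ k • a) *
          side h (g ^ (k + 1) • a)) := mul_pos ih h1
      have h4 : (side h a * side h (g ^ k • a)) * (side h (g ^ k • a) *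
          side h (g ^ (k + 1) • a)) = (side h (g ^ k • a)) ^ 2 *
          (side h a * side h (g ^ (k + 1) • a)) := by ring
      rw [h4] at h3
      nlinarith [sq_nonneg (side h (g ^ k • a))]
  by_contra hneg
  push Not at hneg
  set A := side h a with hA
  set C := side h c with hC
  set D := n * dt c a with hDdef
  set B := pol h a c with hB
  have h5 : C * A ≤ -1 := by omega
  have h6 : 1 ≤ D ^ 2 := by
    have : 0 < D ^ 2 := by positivity
    omega
  have h7 : D ^ 2 * (C * A) ≤ -1 := by nlinarith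
  have key := hall (A ^ 2 + |D * B * A| + 1).toNat
  rw [hpow, side_par] at key
  have hN : (((A ^ 2 + |D * B * A| + 1).toNat : ℕ) : ℤ) = A ^ 2 + |D * B * A| + 1 :=
    Int.toNat_of_nonneg (by positivity)
  rw [hN] at key
  have h8 := le_abs_self (D * B * A)
  set M := |D * B * A| with hM
  have hM0 : 0 ≤ M := abs_nonneg _
  have hA0 : 0 ≤ A ^ 2 := sq_nonneg _
  set N := A ^ 2 + M + 1 with hNdef
  have key' : 0 < A ^ 2 + N * (D * B * A) + N ^ 2 * (D ^ 2 * (C * A)) := by
    have : A * (A + N * n * dt c a * B + (N * n * dt c a) ^ 2 * C) =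
        A ^ 2 + N * (D * B * A) + N ^ 2 * (D ^ 2 * (C * A)) := by
      rw [hDdef]; ring
    rw [← this]
    exact key
  have hN1 : 1 ≤ N := by omega
  have h9 : N * (D * B * A) ≤ N * M := by nlinarith
  have h10 : N ^ 2 * (D ^ 2 * (C * A)) ≤ -N ^ 2 := by nlinarith [sq_nonneg N]
  have h11 : N * (N - M) ≥ A ^ 2 + 1 := by
    have : N - M = A ^ 2 + 1 := by rw [hNdef]; ring
    rw [this]
    nlinarith
  nlinarith

/-! ## Compatibility -/

variable {G : Subgroup SLZ}

lemma cross_inv {a b c d : Cusp} (g : SLZ) :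
    Cross a b (g • c) (g • d) ↔ Cross c d (g⁻¹ • a) (g⁻¹ • b) := by
  rw [← cross_smul g⁻¹, inv_smul_smul, inv_smul_smul, cross_swap]

lemma compat_symm {τ υ : TArc} (h : Compat G τ υ) : Compat G υ τ := by
  obtain ⟨h1, h2⟩ := h
  refine ⟨fun g hg hc => h1 g⁻¹ (G.inv_mem hg) ((cross_inv g).1 hc), ?_⟩
  rcases h2 with ⟨⟨g, hg, e1, e2⟩, ht⟩ | ⟨⟨g, hg, e1, e2⟩, ht⟩ | ⟨k1, k2, k3, k4⟩
  · refine Or.inl ⟨⟨g⁻¹, G.inv_mem hg, ?_, ?_⟩, ?_⟩
    · rw [← e1, inv_smul_smul]
    · rw [← e2, inv_smul_smul]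
    · exact ht.imp Eq.symm Eq.symm
  · refine Or.inr (Or.inl ⟨⟨g⁻¹, G.inv_mem hg, ?_, ?_⟩, ?_⟩)
    · rw [← e2, inv_smul_smul]
    · rw [← e1, inv_smul_smul]
    · rcases ht with ht | ht
      · exact Or.inr ht.symm
      · exact Or.inl ht.symm
  · refine Or.inr (Or.inr ⟨?_, ?_, ?_, ?_⟩)
    · intro g hg e
      exact (k1 g⁻¹ (G.inv_mem hg) (by rw [← e, inv_smul_smul])).symm
    · intro g hg e
      exact (k3 g⁻¹ (G.inv_mem hg) (by rw [← e, inv_smul_smul])).symm
    · intro g hg e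
      exact (k2 g⁻¹ (G.inv_mem hg) (by rw [← e, inv_smul_smul])).symm
    · intro g hg e
      exact (k4 g⁻¹ (G.inv_mem hg) (by rw [← e, inv_smul_smul])).symm

/-- `(a, b)` is a monogon loop around `c` -/
def Mono (G : Subgroup SLZ) (p : Cusp × Cusp) (c : Cusp) : Prop :=
  ∃ g ∈ G, g • c = c ∧ g • p.1 = p.2

open Classical in
/-- the tagged arcs of an arc -/
noncomputable def conv (G : Subgroup SLZ) (p : Cusp × Cusp) : List TArc :=
  if h : ∃ c, Mono G p c then [⟨h.choose, p.1, false, false⟩, ⟨h.choose, p.1, true, false⟩]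
  else [⟨p.1, p.2, false, false⟩]

lemma mem_conv {p : Cusp × Cusp} {τ : TArc} (h : τ ∈ conv G p) :
    ((¬ ∃ c, Mono G p c) ∧ τ = ⟨p.1, p.2, false, false⟩) ∨
    (∃ c s, Mono G p c ∧ τ = ⟨c, p.1, s, false⟩) := by
  unfold conv at h
  split_ifs at h with h1
  · right
    rcases List.mem_cons.1 h with h2 | h2
    · exact ⟨_, false, h1.choose_spec, h2⟩
    · exact ⟨_, true, h1.choose_spec, List.mem_singleton.1 h2⟩
  · left
    exact ⟨h1, List.mem_singleton.1 h⟩

section

variable (hM : MonogStatement) (hG : IsSurface G)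

include hM hG

/-- mono against plain -/
lemma compat_mono_plain {p q : Cusp × Cusp} {c : Cusp} (s : Bool) (hp : Mono G p c)
    (hsp : Simple G p.1 p.2) (hsq : Simple G q.1 q.2)
    (hn : ∀ g ∈ G, ¬ Cross q.1 q.2 (g • p.1) (g • p.2)) :
    Compat G ⟨c, p.1, s, false⟩ ⟨q.1, q.2, false, false⟩ := by
  obtain ⟨g, hg, hgc, hga⟩ := hp
  obtain ⟨m1, m2, m3, m4⟩ := hM G hG p.1 c g hg hgc (by rw [hga]; exact hsp)
  obtain ⟨n1, n2, n3⟩ := m4 q.1 q.2 hsq (fun k hk => by rw [hga]; exact hn k hk)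
  refine ⟨fun k hk hc => n1 k⁻¹ (G.inv_mem hk) ((cross_inv k).1 hc), ?_⟩
  by_cases hx : (∃ k ∈ G, k • c = q.1) ∨ (∃ k ∈ G, k • c = q.2)
  · obtain ⟨k, hk, h1 | h1⟩ : SameArc G c p.1 q.1 q.2 := hx.elim n2 n3
    · exact Or.inl ⟨⟨k, hk, h1⟩, Or.inr rfl⟩
    · exact Or.inr (Or.inl ⟨⟨k, hk, h1⟩, Or.inr rfl⟩)
  · push Not at hx
    refine Or.inr (Or.inr ⟨fun k hk e => absurd e (hx.1 k hk), fun k hk e => absurd e (hx.2 k hk),
      fun _ _ _ => rfl, fun _ _ _ => rfl⟩)

/-- mono against mono -/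
lemma compat_mono_mono {p q : Cusp × Cusp} {c c' : Cusp} (s s' : Bool) (hp : Mono G p c)
    (hq : Mono G q c') (hsp : Simple G p.1 p.2) (hsq : Simple G q.1 q.2)
    (hn : ∀ g ∈ G, ¬ Cross q.1 q.2 (g • p.1) (g • p.2)) :
    Compat G ⟨c, p.1, s, false⟩ ⟨c', q.1, s', false⟩ := by
  have hn' : ∀ g ∈ G, ¬ Cross p.1 p.2 (g • q.1) (g • q.2) := fun g hg hc =>
    hn g⁻¹ (G.inv_mem hg) ((cross_inv g).1 hc)
  obtain ⟨g, hg, hgc, hga⟩ := hp
  obtain ⟨g', hg', hgc', hga'⟩ := hq
  obtain ⟨m1, m2, m3, m4⟩ := hM G hG p.1 c g hg hgc (by rw [hga]; exact hsp)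
  obtain ⟨m1', m2', m3', m4'⟩ := hM G hG q.1 c' g' hg' hgc' (by rw [hga']; exact hsq)
  obtain ⟨n1, n2, n3⟩ := m4 q.1 q.2 hsq (fun k hk => by rw [hga]; exact hn k hk)
  obtain ⟨n1', n2', n3'⟩ := m4' p.1 p.2 hsp (fun k hk => by rw [hga']; exact hn' k hk)
  -- `c` is not equivalent to the base point `q.1`
  have c1 : ∀ k ∈ G, k • c ≠ q.1 := by
    intro k hk e
    obtain ⟨h, hh, ⟨e1, e2⟩ | ⟨e1, e2⟩⟩ := n2 ⟨k, hk, e⟩
    · apply m3 (h⁻¹ * g' * h) (G.mul_mem (G.mul_mem (G.inv_mem hh) hg') hh)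
      rw [mul_smul, mul_smul, e1, hga', ← e2, inv_smul_smul]
    · apply m3 (h⁻¹ * g'⁻¹ * h) (G.mul_mem (G.mul_mem (G.inv_mem hh) (G.inv_mem hg')) hh)
      rw [mul_smul, mul_smul, e1, ← hga', inv_smul_smul, ← e2, inv_smul_smul]
  have c2 : ∀ k ∈ G, k • c' ≠ p.1 := by
    intro k hk e
    obtain ⟨h, hh, ⟨e1, e2⟩ | ⟨e1, e2⟩⟩ := n2' ⟨k, hk, e⟩
    · apply m3' (h⁻¹ * g * h) (G.mul_mem (G.mul_mem (G.inv_mem hh) hg) hh)
      rw [mul_smul, mul_smul, e1, hga, ← e2, inv_smul_smul]
    · apply m3' (h⁻¹ * g⁻¹ * h) (G.mul_mem (G.mul_mem (G.inv_mem hh) (G.inv_mem hg)) hh)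
      rw [mul_smul, mul_smul, e1, ← hga, inv_smul_smul, ← e2, inv_smul_smul]
  -- the arcs `c p.1` and `c' q.1` do not cross
  obtain ⟨r1, r2, r3⟩ := m4' c p.1 m2 (fun k hk hc => by
    rw [hga'] at hc
    exact n1 k⁻¹ (G.inv_mem hk) ((cross_inv k).1 hc))
  refine ⟨r1, ?_⟩
  by_cases hx : ∃ k ∈ G, k • c' = c
  · obtain ⟨k, hk, ⟨e1, e2⟩ | ⟨e1, e2⟩⟩ := r2 hx
    · refine Or.inl ⟨⟨k⁻¹, G.inv_mem hk, ?_, ?_⟩, Or.inr rfl⟩
      · change k⁻¹ • c = c'
        rw [← e1, inv_smul_smul]
      · change k⁻¹ • p.1 = q.1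
        rw [← e2, inv_smul_smul]
    · exact absurd e1 (c2 k hk)
  · push Not at hx
    refine Or.inr (Or.inr ⟨?_, ?_, ?_, fun _ _ _ => rfl⟩)
    · intro k hk e
      refine absurd ?_ (hx k⁻¹ (G.inv_mem hk))
      have e' : k • c = c' := e
      rw [← e', inv_smul_smul]
    · intro k hk e
      exact absurd e (c1 k hk)
    · intro k hk e
      refine absurd ?_ (c2 k⁻¹ (G.inv_mem hk))
      have e' : k • p.1 = c' := e
      rw [← e', inv_smul_smul]

end

/-- BRSYSA -/
theorem brsysa (hM : MonogStatement) (hV : VgenStatement) (hS : StabStatement) :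
    BrsysaStatement := by
  classical
  intro G hG γ
  have hsimple : ∀ p ∈ γ.arcs, Simple G p.1 p.2 := fun p hp =>
    ⟨γ.ne p hp, fun g hg => γ.nocross p hp p hp g hg⟩
  refine ⟨{ arcs := ((γ.arcs.flatMap (conv G) : List TArc) : Multiset TArc)
            loops := γ.loops
            arc := ?_
            compat := ?_
            loop := γ.loop
            disj := ?_
            pair := γ.pairw }, ?_⟩
  · -- tagged arcs
    intro τ hτ
    obtain ⟨p, hp, hτp⟩ := List.mem_flatMap.1 (Multiset.mem_coe.1 hτ)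
    rcases mem_conv hτp with ⟨h1, rfl⟩ | ⟨c, s, ⟨g, hg, hgc, hga⟩, rfl⟩
    · refine ⟨γ.ne p hp, (hsimple p hp).2, ?_, fun _ _ _ => rfl⟩
      intro g hg e c hc
      exact h1 ⟨c, g, hg, hc, e⟩
    · obtain ⟨m1, m2, m3, m4⟩ := hM G hG p.1 c g hg hgc (by rw [hga]; exact hsimple p hp)
      refine ⟨m2.1, m2.2, ?_, ?_⟩
      · intro k hk e
        exact absurd e (m3 k hk)
      · intro k hk e
        exact absurd e (m3 k hk)
  · -- compatibility
    intro τ hτ υ hυ
    obtain ⟨p, hp, hτp⟩ := List.mem_flatMap.1 (Multiset.mem_coe.1 hτ)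
    obtain ⟨q, hq, hυq⟩ := List.mem_flatMap.1 (Multiset.mem_coe.1 hυ)
    rcases mem_conv hτp with ⟨h1, rfl⟩ | ⟨c, s, hc, rfl⟩
    · rcases mem_conv hυq with ⟨h2, rfl⟩ | ⟨c', s', hc', rfl⟩
      · refine ⟨γ.nocross p hp q hq, Or.inr (Or.inr ⟨fun _ _ _ => rfl, fun _ _ _ => rfl,
          fun _ _ _ => rfl, fun _ _ _ => rfl⟩)⟩
      · exact compat_symm (compat_mono_plain hM hG s' hc' (hsimple q hq) (hsimple p hp)
          (γ.nocross p hp q hq))
    · rcases mem_conv hυq with ⟨h2, rfl⟩ | ⟨c', s', hc', rfl⟩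
      · exact compat_mono_plain hM hG s hc (hsimple p hp) (hsimple q hq) (γ.nocross q hq p hp)
      · exact compat_mono_mono hM hG s s' hc hc' (hsimple p hp) (hsimple q hq)
          (γ.nocross q hq p hp)
  · -- loops and arcs are disjoint
    intro l hl τ hτ g' hg'
    obtain ⟨p, hp, hτp⟩ := List.mem_flatMap.1 (Multiset.mem_coe.1 hτ)
    rcases mem_conv hτp with ⟨h1, rfl⟩ | ⟨c, s, ⟨g, hg, hgc, hga⟩, rfl⟩
    · exact (γ.disj l hl p hp g' hg').le
    · obtain ⟨m1, m2, m3, m4⟩ := hM G hG p.1 c g hg hgc (by rw [hga]; exact hsimple p hp)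
      change 0 ≤ side l.1 (g' • c) * side l.1 (g' • p.1)
      refine side_limit (g := g' * g * g'⁻¹) ?_ ?_ ?_ ?_
      · intro e
        exact m2.1 (smul_left_cancel g' e)
      · rw [mul_smul, mul_smul, inv_smul_smul, hgc]
      · rw [mul_smul, mul_smul, inv_smul_smul, hga]
        intro e
        exact γ.ne p hp (smul_left_cancel g' e).symm
      · intro k
        have h2 := γ.disj l hl p hp ((g' * g * g'⁻¹) ^ k * g')
          (G.mul_mem (G.pow_mem (G.mul_mem (G.mul_mem hg' hg) (G.inv_mem hg')) k) hg')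
        rw [mul_smul, mul_smul] at h2
        have e : (g' * g * g'⁻¹) • g' • p.1 = g' • p.2 := by
          rw [mul_smul, mul_smul, inv_smul_smul, hga]
        rw [e]
        exact h2
  · -- the functions
    intro K _ _ L
    have key : ∀ p ∈ γ.arcs, ((conv G p).map L.arc).prod = L.lam p.1 p.2 := by
      intro p hp
      unfold conv
      split_ifs with h
      · obtain ⟨g, hg, hgc, hga⟩ := h.choose_spec
        generalize h.choose = c at *
        obtain ⟨m1, m2, m3, m4⟩ := hM G hG p.1 c g hg hgc (by rw [hga]; exact hsimple p hp)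
        obtain ⟨k, hk, hk'⟩ := gen_abs hS hG m2.1 hg hgc m1
        have h1 := hV G K L hG c p.1 k
        rw [← hk', hga, hk] at h1
        rw [h1]
        simp [Lam.arc]
        ring
      · simp [Lam.arc]
    unfold Lam.I Lam.IS
    congr 1
    rw [Multiset.map_coe, Multiset.prod_coe]
    have : ∀ l : List (Cusp × Cusp), (∀ p ∈ l, ((conv G p).map L.arc).prod = L.lam p.1 p.2) →
        ((l.flatMap (conv G)).map L.arc).prod = (l.map (fun p => L.lam p.1 p.2)).prod := by
      intro l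
      induction l with
      | nil => intro _; rfl
      | cons p l ih =>
        intro hl
        rw [List.flatMap_cons, List.map_append, List.prod_append, List.map_cons, List.prod_cons,
          hl p List.mem_cons_self, ih fun q hq => hl q (List.mem_cons_of_mem _ hq)]
    exact this γ.arcs key

end Pool.Agent.Lib.MP_eee7a8_ag.TB.C85
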